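import Pool.Agent.N805.VP.Stm2

/-!
# Length covered by the intervals to the left of ordered points (helper322, project VP)
-/

set_option autoImplicit false
set_option maxHeartbeats 400000

open MeasureTheory Set Filter Topology

namespace Pool.Agent.N322.VP

open Pool.Agent.N805.VP

/-- the covered set -/
def AA (x : ℕ → ℝ) (s : ℝ) (N : ℕ) : Set ℝ := {t : ℝ | ∃ n ∈ Finset.Icc 1 N, x n - t ∈ Ico 0 s}

theorem mem_AA {x : ℕ → ℝ} {s : ℝ} {N : ℕ} {t : ℝ} :
    t ∈ AA x s N ↔ ∃ n, 1 ≤ n ∧ n ≤ N ∧ x n - s < t ∧ t ≤ x n := by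
  unfold AA
  constructor
  · rintro ⟨n, hn, h1, h2⟩
    rw [Finset.mem_Icc] at hn
    exact ⟨n, hn.1, hn.2, by linarith, by linarith⟩
  · rintro ⟨n, h1, h2, h3, h4⟩
    exact ⟨n, Finset.mem_Icc.2 ⟨h1, h2⟩, by linarith, by linarith⟩

theorem AA_one (x : ℕ → ℝ) (s : ℝ) : AA x s 1 = Ioc (x 1 - s) (x 1) := by
  ext t
  rw [mem_AA]
  constructor
  · rintro ⟨n, h1, h2, h3, h4⟩
    obtain rfl : n = 1 := le_antisymm h2 h1
    exact ⟨h3, h4⟩
  · rintro ⟨h3, h4⟩
    exact ⟨1, le_rfl, le_rfl, h3, h4⟩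

theorem AA_succ (x : ℕ → ℝ) (s : ℝ) {N : ℕ} (hN : 1 ≤ N) (hx : x N ≤ x (N + 1)) :
    AA x s (N + 1) = AA x s N ∪ Ioc (max (x (N + 1) - s) (x N)) (x (N + 1)) := by
  ext t
  rw [Set.mem_union, mem_AA, mem_AA, Set.mem_Ioc, max_lt_iff]
  constructor
  · rintro ⟨n, h1, h2, h3, h4⟩
    by_cases hn : n ≤ N
    · exact Or.inl ⟨n, h1, hn, h3, h4⟩
    · obtain rfl : n = N + 1 := by omega
      by_cases ht : t ≤ x N
      · exact Or.inl ⟨N, hN, le_rfl, by linarith, ht⟩
      · exact Or.inr ⟨⟨h3, not_le.1 ht⟩, h4⟩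
  · rintro (⟨n, h1, h2, h3, h4⟩ | ⟨⟨h1, _⟩, h3⟩)
    · exact ⟨n, h1, by omega, h3, h4⟩
    · exact ⟨N + 1, by omega, le_rfl, h1, h3⟩

theorem main (x : ℕ → ℝ) (s : ℝ) (hs : 0 ≤ s) (N : ℕ) (hN : 1 ≤ N)
    (hx : ∀ n : ℕ, 1 ≤ n → n < N → x n ≤ x (n + 1)) :
    MeasurableSet (AA x s N) ∧ volume (AA x s N) ≠ ⊤ ∧ AA x s N ⊆ Iic (x N) ∧
      volume.real (AA x s N) = s + ∑ n ∈ Finset.Ico 1 N, min s (x (n + 1) - x n) := by
  induction N, hN using Nat.le_induction with
  | base =>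
    rw [AA_one]
    refine ⟨measurableSet_Ioc, ?_, fun t ht => ht.2, ?_⟩
    · rw [Real.volume_Ioc]
      exact ENNReal.ofReal_ne_top
    · rw [Real.volume_real_Ioc_of_le (by linarith), Finset.Ico_self, Finset.sum_empty]
      ring
  | succ N hN ih =>
    obtain ⟨h1, h2, h3, h4⟩ := ih fun n hn hn' => hx n hn (by omega)
    have hxN := hx N hN (Nat.lt_succ_self N)
    rw [AA_succ x s hN hxN]
    refine ⟨h1.union measurableSet_Ioc, ?_, ?_, ?_⟩
    · refine ne_top_of_le_ne_top ?_ (measure_union_le _ _)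
      refine ENNReal.add_ne_top.2 ⟨h2, ?_⟩
      rw [Real.volume_Ioc]
      exact ENNReal.ofReal_ne_top
    · rintro t (ht | ht)
      · exact (h3 ht).trans hxN
      · exact ht.2
    · have hdisj : Disjoint (AA x s N) (Ioc (max (x (N + 1) - s) (x N)) (x (N + 1))) := by
        rw [Set.disjoint_left]
        intro t ht ht'
        have h5 : t ≤ x N := h3 ht
        have h6 : x N < t := lt_of_le_of_lt (le_max_right _ _) ht'.1
        linarith
      have hfin : volume (Ioc (max (x (N + 1) - s) (x N)) (x (N + 1))) ≠ ⊤ := by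
        rw [Real.volume_Ioc]
        exact ENNReal.ofReal_ne_top
      rw [measureReal_union hdisj measurableSet_Ioc h2 hfin, h4,
        Real.volume_real_Ioc_of_le (max_le (by linarith) hxN), Finset.sum_Ico_succ_top hN]
      have : x (N + 1) - max (x (N + 1) - s) (x N) = min s (x (N + 1) - x N) := by
        rcases le_total s (x (N + 1) - x N) with h | h
        · rw [min_eq_left h, max_eq_left (by linarith)]
          ring
        · rw [min_eq_right h, max_eq_right (by linarith)]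
      rw [this]
      ring

theorem GAP : Pool.Agent.N805.VP.S_GAP := by
  intro N x s hN hs hx
  exact (main x s hs N hN hx).2.2.2

end Pool.Agent.N322.VP
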